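import Mathlib
import Pool.Agent.Q103.OP.All

/-!
# Preperiodic points of bounded gonality: all endomorphisms of the projective line except flexible
Lattes maps
-/

namespace Pool.Agent.Results.MP_62a0c3_nt.ProjectiveLineExceptLattes

open Polynomial

universe u v

/-- The self-map of the projective line `K ∪ {∞}`, where `none` is `∞`, given by the rational
function `p / q`, where `p` and `q` are coprime and `d` is the larger of their degrees: it sends
`x` to `p(x) / q(x)`, or to `∞` when `q(x) = 0`, and it sends `∞` to the quotient of the
coefficients of degree `d`, or to `∞` when that of `q` is zero. -/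
noncomputable def mapP1 {K : Type*} [Field K] (p q : K[X]) (d : ℕ) : Option K → Option K
  | some x => by classical exact if q.eval x = 0 then none else some (p.eval x / q.eval x)
  | none => by classical exact if q.coeff d = 0 then none else some (p.coeff d / q.coeff d)

/-- With `φ(x) = (a x + b) / (c x + e)`, the map `p / q` of degree `d` satisfies
`φ ∘ (p / q) = (u / w) ∘ φ` for some `a, b, c, e` in `K` with `a e ≠ b c` and some polynomials
`u, w` of degree at most `d`, not both zero, with coefficients algebraic over `k`; the equation is
written with denominators cleared. For an algebraically closed field `K` this says that `p / q` is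
isotrivial. -/
def Isotrivial (k : Type*) {K : Type*} [Field k] [Field K] [Algebra k K] (p q : K[X])
    (d : ℕ) : Prop :=
  ∃ a b c e : K, a * e - b * c ≠ 0 ∧ ∃ u w : K[X], (u ≠ 0 ∨ w ≠ 0) ∧
    u.natDegree ≤ d ∧ w.natDegree ≤ d ∧ (∀ n, IsAlgebraic k (u.coeff n)) ∧
    (∀ n, IsAlgebraic k (w.coeff n)) ∧
    (C a * p + C b * q) * ∑ i ∈ Finset.range (d + 1),
      C (w.coeff i) * (C a * X + C b) ^ i * (C c * X + C e) ^ (d - i) =
    (C c * p + C e * q) * ∑ i ∈ Finset.range (d + 1),
      C (u.coeff i) * (C a * X + C b) ^ i * (C c * X + C e) ^ (d - i)

/-- The map `f = p / q` of degree `d` is a flexible Lattes map (`K` is algebraically closed of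
characteristic zero): there is a rational function `φ = r / s`, not zero, such that
`φ(f(z)) f'(z) ^ 2 = d φ(z)` for all `z` in `K` at which the denominators do not vanish. -/
def FlexibleLattes {K : Type*} [Field K] (p q : K[X]) (d : ℕ) : Prop :=
  ∃ r s : K[X], r ≠ 0 ∧ s ≠ 0 ∧ ∀ z : K, q.eval z ≠ 0 → s.eval z ≠ 0 →
    s.eval (p.eval z / q.eval z) ≠ 0 →
    r.eval (p.eval z / q.eval z) / s.eval (p.eval z / q.eval z) *
      ((derivative p * q - p * derivative q).eval z / q.eval z ^ 2) ^ 2 =
    (d : K) * (r.eval z / s.eval z)

/-- The field `E` over `k` is a finite extension of `k(t)` of degree at most `D` for some `t`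
transcendental over `k`: it is the function field of a curve over `k` of gonality at most `D`. -/
def GonalityLE (k E : Type*) [Field k] [Field E] [Algebra k E] (D : ℕ) : Prop :=
  ∃ t : E, Transcendental k t ∧ FiniteDimensional (IntermediateField.adjoin k {t}) E ∧
    Module.finrank (IntermediateField.adjoin k {t}) E ≤ D

/-- `p` as a polynomial over an algebraic closure. -/
noncomputable abbrev bar {K : Type u} [Field K] (p : K[X]) : (AlgebraicClosure K)[X] :=
  p.map (algebraMap K (AlgebraicClosure K))

/-- The set `Preper(f, D)` for the rational map `f = p / q` of degree `d` over `K`: the points `z`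
of the projective line over an algebraic closure of `K` with finite orbit for which the field
`K(z)` has gonality at most `D` over `k`. -/
def Preper (k : Type*) {K : Type u} [Field k] [Field K] [Algebra k K] (p q : K[X]) (d D : ℕ) :
    Set (Option (AlgebraicClosure K)) :=
  {z | (Set.range fun m : ℕ => (mapP1 (bar p) (bar q) d)^[m] z).Finite ∧
    GonalityLE k (IntermediateField.adjoin K {x : AlgebraicClosure K | z = some x}) D}

/-- **The case `N = 1` for all maps except flexible Lattes maps.** There is a function `N` such
that the following holds for every field `k` of characteristic zero (in particular for the field of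
complex numbers), every field `K` over `k` (the function field of a curve), all `D` and `d ≥ 2`,
and every rational map `f = p / q` of degree `d` over `K` which is not isotrivial: if `d` is not a
perfect square, or if `f` is not a flexible Lattes map, then `Preper(f, D)` has at most `N(D, d)`
points. -/
theorem result : ∃ N : ℕ → ℕ → ℕ, ∀ (k : Type v) (K : Type u) [Field k] [CharZero k]
    [Field K] [Algebra k K] (D d : ℕ), 2 ≤ d →
    ∀ p q : K[X], IsCoprime p q → max p.natDegree q.natDegree = d →
      ¬ Isotrivial k (bar p) (bar q) d →
      (¬ IsSquare d ∨ ¬ FlexibleLattes (bar p) (bar q) d) →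
      (Preper k p q d D).encard ≤ ((N D d : ℕ) : ℕ∞) := by
  obtain ⟨N, hN⟩ := Pool.Agent.Q103.OP.Fin.gon Pool.Agent.Q103.OP.t_LCA.{u, v}
  refine ⟨N, ?_⟩
  intro k K _ _ _ _ D d hd p q hco hmax hiso hcase
  have hcK : CharZero K := charZero_of_injective_algebraMap (algebraMap k K).injective
  have hcK' : CharZero (AlgebraicClosure K) :=
    charZero_of_injective_algebraMap (algebraMap K (AlgebraicClosure K)).injective
  have hlat : ¬ Pool.Agent.Q103.OP.Lat d (bar p) (bar q) := by
    intro hlat
    rcases hcase with h | h
    · refine h (Pool.Agent.Q103.OP.t_SQR _ d hd _ _ ⟨?_, ?_⟩ hlat)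
      · exact (isCoprime_map _).mpr hco
      · rw [natDegree_map, natDegree_map]
        exact hmax
    · apply h
      obtain ⟨e, r, s, hr, hs, hre, hse, hid⟩ := hlat
      refine ⟨r, s, hr, hs, fun z hq hsz hsf => ?_⟩
      have h1 := congrArg (eval z) hid
      simp only [eval_mul, eval_pow, eval_C] at h1
      rw [Pool.Agent.W277.UH.hc_eval, Pool.Agent.W277.UH.hc_eval,
        Pool.Agent.W277.UH.hev_eval e r hre ((bar p).eval z, (bar q).eval z) hq,
        Pool.Agent.W277.UH.hev_eval e s hse ((bar p).eval z, (bar q).eval z) hq] at h1
      simp only at h1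
      have hqe : (bar q).eval z ^ e ≠ 0 := pow_ne_zero _ hq
      have h2 : r.eval ((bar p).eval z / (bar q).eval z) *
          (Pool.Agent.Q103.OP.Wr (bar p) (bar q)).eval z ^ 2 * s.eval z =
          (d : AlgebraicClosure K) * r.eval z * s.eval ((bar p).eval z / (bar q).eval z) *
            (bar q).eval z ^ 4 := by
        apply mul_left_cancel₀ hqe
        linear_combination h1
      have h3 : (Pool.Agent.Q103.OP.Wr (bar p) (bar q)).eval z =
          (derivative (bar p) * bar q - bar p * derivative (bar q)).eval z := rfl
      rw [h3] at h2
      rw [div_pow, div_mul_div_comm, mul_div_assoc',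
        div_eq_div_iff (mul_ne_zero hsf (by positivity)) hsz]
      linear_combination h2
  have e : mapP1 (bar p) (bar q) d = Pool.Agent.W277.UH.ratP1 (bar p) (bar q) d := by
    funext z
    cases z <;> rfl
  have h := hN k K D d hd p q ⟨hco, hmax⟩ hiso hlat
  unfold Preper
  rw [e]
  exact h

end Pool.Agent.Results.MP_62a0c3_nt.ProjectiveLineExceptLattes
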